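import Pool.Agent.Lib.helper11.QWheel

namespace Pool.Agent.Results.MP_c0afcf_an.Wheel

open Pool.Agent.Lib.helper11.QGraph Set

theorem result : ∃ (G : QG (Fin 6) (Fin 9)) (μ : ℝ), G.Good ∧ (∀ v, G.str v = 0) ∧
    G.IsSecond μ ∧ (∃ e, ∀ x ∈ Ioo 0 (G.len e), G.Hot μ e x) ∧
    ∃ e, ∃ x ∈ Ioo 0 (G.len e), ¬ G.Hot μ e x :=
  ⟨W, _, W_good, fun _ => rfl, W_second, ⟨0, fun x _ => W_hot x⟩, 8, 1 / 4,
    by simp [W]; norm_num, W_not_hot⟩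

end Pool.Agent.Results.MP_c0afcf_an.Wheel
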